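import Pool.Agent.helper73.BRZ.Spec

set_option autoImplicit false

namespace Pool.Agent.BRZ

open Matrix Module Pool.Agent.PR Pool.Agent.SHL TensorProduct MeasureTheory
open scoped ENNReal ContDiff RealInnerProductSpace FourierTransform SchwartzMap

theorem POI_cov {N : ℕ} (g : EE N → ℂ) (A : EE N ≃ₗ[ℝ] EE N) :
    ∫ v, g (A v) = ((|LinearMap.det (A : EE N →ₗ[ℝ] EE N)|⁻¹ : ℝ) : ℂ) * ∫ w, g w := by
  have hdet : LinearMap.det (A : EE N →ₗ[ℝ] EE N) ≠ 0 := by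
    have := LinearEquiv.isUnit_det' A
    exact this.ne_zero
  have h1 := Measure.map_linearMap_addHaar_eq_smul_addHaar (volume : Measure (EE N)) hdet
  have h2 : ∫ w, g w ∂(Measure.map (A.toContinuousLinearEquiv.toHomeomorph.toMeasurableEquiv) volume)
      = ∫ v, g (A v) := by
    rw [integral_map_equiv]
    rfl
  have h3 : (Measure.map (A.toContinuousLinearEquiv.toHomeomorph.toMeasurableEquiv) volume :
      Measure (EE N)) = Measure.map (A : EE N →ₗ[ℝ] EE N) volume := rfl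
  rw [h3, h1, integral_smul_measure, ENNReal.toReal_ofReal (abs_nonneg _), abs_inv] at h2
  rw [← h2]
  exact Complex.real_smul

theorem POI_four {N : ℕ} (f : EE N → ℂ) (A : EE N ≃ₗ[ℝ] EE N) (ξ : EE N) :
    𝓕 (fun v => f (A v)) ξ = ((|LinearMap.det (A : EE N →ₗ[ℝ] EE N)|⁻¹ : ℝ) : ℂ) *
      𝓕 f (LinearMap.adjoint (A.symm : EE N →ₗ[ℝ] EE N) ξ) := by
  rw [Real.fourier_eq, Real.fourier_eq]
  rw [← POI_cov (fun w => Real.fourierChar
    (-⟪w, LinearMap.adjoint (A.symm : EE N →ₗ[ℝ] EE N) ξ⟫) • f w) A]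
  refine integral_congr_ae (Filter.Eventually.of_forall fun v => ?_)
  show _ = Real.fourierChar
    (-⟪A v, LinearMap.adjoint (A.symm : EE N →ₗ[ℝ] EE N) ξ⟫) • f (A v)
  rw [LinearMap.adjoint_inner_right]
  have e : (A.symm : EE N →ₗ[ℝ] EE N) (A v) = v := A.symm_apply_apply v
  rw [e]

/-- Poisson summation for general lattices. -/
theorem POI (hPOA : POA_stmt) : POI_stmt := by
  intro N f A
  let g : 𝓢(EE N, ℂ) := SchwartzMap.compCLMOfContinuousLinearEquiv ℂ A.toContinuousLinearEquiv f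
  have hg : (g : EE N → ℂ) = fun v => f (A v) := rfl
  have hdet : LinearMap.det (A : EE N →ₗ[ℝ] EE N) ≠ 0 := (LinearEquiv.isUnit_det' A).ne_zero
  have hc : ((|LinearMap.det (A : EE N →ₗ[ℝ] EE N)|⁻¹ : ℝ) : ℂ) ≠ 0 := by
    rw [Ne, Complex.ofReal_eq_zero]
    exact inv_ne_zero (abs_ne_zero.2 hdet)
  obtain ⟨h1, h2, h3⟩ := hPOA N g
  have hF : ∀ ξ, 𝓕 (g : EE N → ℂ) ξ = ((|LinearMap.det (A : EE N →ₗ[ℝ] EE N)|⁻¹ : ℝ) : ℂ) *
      𝓕 (f : EE N → ℂ) (LinearMap.adjoint (A.symm : EE N →ₗ[ℝ] EE N) ξ) := by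
    intro ξ
    rw [hg]
    exact POI_four f A ξ
  have e : (fun n : Fin N → ℤ => 𝓕 (g : EE N → ℂ) (zv n)) = fun n =>
      ((|LinearMap.det (A : EE N →ₗ[ℝ] EE N)|⁻¹ : ℝ) : ℂ) *
      𝓕 (f : EE N → ℂ) (LinearMap.adjoint (A.symm : EE N →ₗ[ℝ] EE N) (zv n)) :=
    funext fun n => hF (zv n)
  rw [e] at h2 h3
  refine ⟨h1, ?_, ?_⟩
  · exact (summable_mul_left_iff hc).1 h2
  · rw [← tsum_mul_left]
    exact h3

end Pool.Agent.BRZ
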